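import Pool.Agent.K3h76.SB.StmB

set_option autoImplicit false

/-!
# Brick HALF: the first asymptotic expansion (by helper70)
-/

namespace Pool.Agent.K3h70.SB

open Finset PowerSeries Asymptotics Filter
open Pool.Agent.K3h96.OS Pool.Agent.K3h76.SB

/-- part (a): the error of a convolution with a geometrically small sequence -/
theorem conv_err (C R θ θ₁ K : ℝ) (Γ Δ b : ℕ → ℝ) (c : ℕ → ℕ) (hθ0 : 0 < θ) (hθ1 : θ < 1)
    (h0 : 0 < θ₁) (h1 : θ₁ < 1) (hΓ : ∀ q, |Γ q| ≤ C) (hΔ : ∀ p, |Δ p - R| ≤ C * θ ^ p)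
    (hc : ∀ k, c k ≤ k) (hc2 : ∀ k, k ≤ 2 * c k + 2) (hb : ∀ q, |b q| ≤ K * θ₁ ^ q) :
    ∃ K' x : ℝ, 0 < x ∧ x < 1 ∧ ∀ k,
      |∑ q ∈ range (c k + 1), Γ q * Δ (k - q) * b q - R * ∑' q, Γ q * b q| ≤ K' * x ^ k := by
  have hC : 0 ≤ C := (abs_nonneg _).trans (hΓ 0)
  have hK : 0 ≤ K := by
    have := (abs_nonneg _).trans (hb 0)
    simpa using this
  obtain ⟨θ₂, hθ₂⟩ : ∃ θ₂ : ℝ, θ₂ = max θ θ₁ := ⟨_, rfl⟩
  have h20 : 0 < θ₂ := by rw [hθ₂]; exact lt_max_of_lt_left hθ0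
  have h21 : θ₂ < 1 := by rw [hθ₂]; exact max_lt hθ1 h1
  have hle1 : θ ≤ θ₂ := by rw [hθ₂]; exact le_max_left _ _
  have hle2 : θ₁ ≤ θ₂ := by rw [hθ₂]; exact le_max_right _ _
  obtain ⟨K3, θ₃, hK3, h30, h31, hp⟩ := poly_geom θ₂ h20 h21 1
  have hab : ∀ q, |Γ q * b q| ≤ C * K * θ₁ ^ q := by
    intro q
    rw [abs_mul]
    calc |Γ q| * |b q| ≤ C * (K * θ₁ ^ q) := mul_le_mul (hΓ q) (hb q) (abs_nonneg _) hC
      _ = C * K * θ₁ ^ q := by ring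
  have hsum : Summable (fun q => Γ q * b q) :=
    Summable.of_norm_bounded ((summable_geometric_of_lt_one h0.le h1).mul_left (C * K)) hab
  have hsq0 : 0 < √θ₁ := Real.sqrt_pos.2 h0
  have hsq1 : √θ₁ < 1 := by
    rw [Real.sqrt_lt' one_pos]
    simpa using h1
  refine ⟨C * C * K * K3 + |R| * (C * K / (1 - θ₁)), max θ₃ (√θ₁), lt_max_of_lt_left h30,
    max_lt h31 hsq1, fun k => ?_⟩
  have e1 : ∑ q ∈ range (c k + 1), Γ q * Δ (k - q) * b q - R * ∑' q, Γ q * b q =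
      ∑ q ∈ range (c k + 1), Γ q * (Δ (k - q) - R) * b q -
        R * ∑' q, Γ (q + (c k + 1)) * b (q + (c k + 1)) := by
    have h2 := hsum.sum_add_tsum_nat_add (c k + 1)
    rw [← h2, mul_add, mul_sum, sub_add_eq_sub_sub, ← sum_sub_distrib]
    congr 1
    refine sum_congr rfl fun q _ => ?_
    ring
  have e2 : |∑ q ∈ range (c k + 1), Γ q * (Δ (k - q) - R) * b q| ≤ C * C * K * (K3 * θ₃ ^ k) := by
    have h3 : ∀ q ∈ range (c k + 1), |Γ q * (Δ (k - q) - R) * b q| ≤ C * C * K * θ₂ ^ k := by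
      intro q hq
      rw [mem_range] at hq
      have hqk : q ≤ k := by have := hc k; omega
      rw [abs_mul, abs_mul]
      calc |Γ q| * |Δ (k - q) - R| * |b q| ≤ C * (C * θ ^ (k - q)) * (K * θ₁ ^ q) := by
            refine mul_le_mul (mul_le_mul (hΓ q) (hΔ _) (abs_nonneg _) hC) (hb q) (abs_nonneg _) ?_
            positivity
        _ ≤ C * (C * θ₂ ^ (k - q)) * (K * θ₂ ^ q) := by gcongr
        _ = C * C * K * (θ₂ ^ (k - q) * θ₂ ^ q) := by ring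
        _ = C * C * K * θ₂ ^ k := by rw [← pow_add, Nat.sub_add_cancel hqk]
    calc |∑ q ∈ range (c k + 1), Γ q * (Δ (k - q) - R) * b q|
        ≤ ∑ q ∈ range (c k + 1), |Γ q * (Δ (k - q) - R) * b q| := abs_sum_le_sum_abs _ _
      _ ≤ ∑ _q ∈ range (c k + 1), C * C * K * θ₂ ^ k := sum_le_sum h3
      _ = ((c k : ℝ) + 1) * (C * C * K * θ₂ ^ k) := by
          rw [sum_const, card_range, nsmul_eq_mul]
          push_cast
          ring
      _ ≤ ((k : ℝ) + 1) * (C * C * K * θ₂ ^ k) := by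
          apply mul_le_mul_of_nonneg_right _ (by positivity)
          have : (c k : ℝ) ≤ k := by exact_mod_cast hc k
          linarith
      _ = C * C * K * (((k : ℝ) + 1) ^ 1 * θ₂ ^ k) := by ring
      _ ≤ C * C * K * (K3 * θ₃ ^ k) := mul_le_mul_of_nonneg_left (hp k) (by positivity)
  have e3 : |∑' q, Γ (q + (c k + 1)) * b (q + (c k + 1))| ≤ C * K / (1 - θ₁) * √θ₁ ^ k := by
    have h4 : HasSum (fun q => C * K * θ₁ ^ (c k + 1) * θ₁ ^ q)
        (C * K * θ₁ ^ (c k + 1) * (1 - θ₁)⁻¹) :=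
      (hasSum_geometric_of_lt_one h0.le h1).mul_left _
    have h5 := tsum_of_norm_bounded (f := fun q => Γ (q + (c k + 1)) * b (q + (c k + 1))) h4
      (fun q => by
        refine (hab _).trans (le_of_eq ?_)
        rw [pow_add]
        ring)
    rw [Real.norm_eq_abs] at h5
    refine h5.trans ?_
    have h6 : θ₁ ^ (c k + 1) ≤ √θ₁ ^ k := by
      calc θ₁ ^ (c k + 1) = (√θ₁ ^ 2) ^ (c k + 1) := by rw [Real.sq_sqrt h0.le]
        _ = √θ₁ ^ (2 * (c k + 1)) := by rw [← pow_mul]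
        _ ≤ √θ₁ ^ k := pow_le_pow_of_le_one hsq0.le hsq1.le (by have := hc2 k; omega)
    have h7 : 0 < (1 - θ₁)⁻¹ := inv_pos.2 (by linarith)
    calc C * K * θ₁ ^ (c k + 1) * (1 - θ₁)⁻¹ ≤ C * K * √θ₁ ^ k * (1 - θ₁)⁻¹ := by gcongr
      _ = C * K / (1 - θ₁) * √θ₁ ^ k := by rw [div_eq_mul_inv]; ring
  have h7 : 0 < 1 - θ₁ := by linarith
  rw [e1]
  calc |∑ q ∈ range (c k + 1), Γ q * (Δ (k - q) - R) * b q -
        R * ∑' q, Γ (q + (c k + 1)) * b (q + (c k + 1))|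
      ≤ |∑ q ∈ range (c k + 1), Γ q * (Δ (k - q) - R) * b q| +
        |R * ∑' q, Γ (q + (c k + 1)) * b (q + (c k + 1))| := abs_sub _ _
    _ ≤ C * C * K * (K3 * θ₃ ^ k) + |R| * (C * K / (1 - θ₁) * √θ₁ ^ k) := by
        rw [abs_mul R]
        exact add_le_add e2 (mul_le_mul_of_nonneg_left e3 (abs_nonneg _))
    _ ≤ C * C * K * (K3 * (max θ₃ (√θ₁)) ^ k) +
        |R| * (C * K / (1 - θ₁) * (max θ₃ (√θ₁)) ^ k) := by
        have h8 : θ₃ ^ k ≤ (max θ₃ (√θ₁)) ^ k := pow_le_pow_left₀ h30.le (le_max_left _ _) k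
        have h9 : √θ₁ ^ k ≤ (max θ₃ (√θ₁)) ^ k := pow_le_pow_left₀ hsq0.le (le_max_right _ _) k
        gcongr
    _ = _ := by ring

/-- the coefficients are geometrically small -/
theorem coef_small (ρ : ℝ) (h0 : 0 < ρ) (h1 : ρ < 1) (t : ℕ) : ∃ K θ₁ : ℝ, 0 < θ₁ ∧ θ₁ < 1 ∧
    ∀ q : ℕ, |((2 * q + 1).choose (2 * t) : ℝ) * ρ ^ (2 * q + 1 - 2 * t)| ≤ K * θ₁ ^ q := by
  obtain ⟨K1, θ₁, hK1, h10, h11, hp⟩ := poly_geom (ρ ^ 2) (by positivity)
    (pow_lt_one₀ h0.le h1 two_ne_zero) (2 * t)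
  refine ⟨2 ^ (2 * t) * (ρ ^ (2 * t))⁻¹ * K1, θ₁, h10, h11, fun q => ?_⟩
  rw [abs_of_nonneg (by positivity)]
  rcases lt_or_ge q t with hq | hq
  · rw [Nat.choose_eq_zero_of_lt (by omega), Nat.cast_zero, zero_mul]
    positivity
  · have e1 : ((2 * q + 1).choose (2 * t) : ℝ) ≤ 2 ^ (2 * t) * ((q : ℝ) + 1) ^ (2 * t) := by
      have h2 : ((2 * q + 1).choose (2 * t) : ℝ) ≤ ((2 * q + 1 : ℕ) : ℝ) ^ (2 * t) := by
        exact_mod_cast Nat.choose_le_pow _ _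
      refine h2.trans ?_
      rw [← mul_pow]
      apply pow_le_pow_left₀ (by positivity)
      push_cast
      linarith
    have e2 : ρ ^ (2 * q + 1 - 2 * t) ≤ (ρ ^ 2) ^ q * (ρ ^ (2 * t))⁻¹ := by
      rw [← pow_mul, ← div_eq_mul_inv, le_div_iff₀ (by positivity), ← pow_add]
      exact pow_le_pow_of_le_one h0.le h1.le (by omega)
    calc ((2 * q + 1).choose (2 * t) : ℝ) * ρ ^ (2 * q + 1 - 2 * t)
        ≤ (2 ^ (2 * t) * ((q : ℝ) + 1) ^ (2 * t)) * ((ρ ^ 2) ^ q * (ρ ^ (2 * t))⁻¹) :=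
          mul_le_mul e1 e2 (by positivity) (by positivity)
      _ = 2 ^ (2 * t) * (ρ ^ (2 * t))⁻¹ * (((q : ℝ) + 1) ^ (2 * t) * (ρ ^ 2) ^ q) := by ring
      _ ≤ 2 ^ (2 * t) * (ρ ^ (2 * t))⁻¹ * (K1 * θ₁ ^ q) :=
          mul_le_mul_of_nonneg_left (hp q) (by positivity)
      _ = _ := by ring

/-- the terms of the double sum -/
noncomputable def tm (B v ρ : ℝ) (k q t : ℕ) : ℝ :=
  ((2 * q + 1).choose (2 * t) : ℝ) * ρ ^ (2 * q + 1 - 2 * t) *
    (Nat.doubleFactorial (2 * t - 1) : ℝ) * v ^ t * (odf (k - t) : ℝ) * B ^ (k - t)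

theorem tm_nonneg (B v ρ : ℝ) (hB : 0 < B) (hv : 0 ≤ v) (hρ : 0 < ρ) (k q t : ℕ) :
    0 ≤ tm B v ρ k q t := by
  unfold tm
  positivity

/-- a single term, for `t ≥ N` -/
theorem tm_le (hBIN : S_BIN) (B v ρ η : ℝ) (hB : 0 < B) (hv : 0 ≤ v) (hρ : 0 < ρ) (hη : 0 < η)
    (k q t N : ℕ) (hNt : N ≤ t) (htq : t ≤ q) (hqk : q ≤ k)
    (hq : (2 * q : ℝ) ≤ η * (2 * k + 1)) :
    tm B v ρ k q t ≤ (odf k * B ^ k * ρ⁻¹ * (η ^ N)⁻¹ * ((2 * q : ℝ) ^ N / (2 * k + 1) ^ N)) *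
      ((η * v / B) ^ t * (ρ ^ 2) ^ (q + 1 - t) * ((q + 1).choose t : ℝ)) := by
  have hP : (0 : ℝ) < 2 * k + 1 := by positivity
  obtain ⟨P, hPd⟩ : ∃ P : ℝ, P = 2 * k + 1 := ⟨_, rfl⟩
  rw [← hPd] at hP hq ⊢
  have h1 : ((2 * q + 1).choose (2 * t) : ℝ) * (Nat.doubleFactorial (2 * t - 1) : ℝ) *
      (odf (k - t) : ℝ) * P ^ t ≤ ((q + 1).choose t : ℝ) * (2 * q) ^ t * odf k := by
    have := hBIN k q t htq hqk
    rw [hPd]
    exact_mod_cast this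
  have h2 : ((2 * q + 1).choose (2 * t) : ℝ) * (Nat.doubleFactorial (2 * t - 1) : ℝ) *
      (odf (k - t) : ℝ) ≤ ((q + 1).choose t : ℝ) * ((2 * q : ℝ) / P) ^ t * odf k := by
    rw [div_pow]
    have hPt : 0 < P ^ t := by positivity
    rw [show ((q + 1).choose t : ℝ) * ((2 * q : ℝ) ^ t / P ^ t) * odf k =
      ((q + 1).choose t : ℝ) * (2 * q) ^ t * odf k / P ^ t by ring, le_div_iff₀ hPt]
    exact h1
  have h3 : ((2 * q : ℝ) / P) ^ t ≤ ((2 * q : ℝ) ^ N / P ^ N) * (η ^ t * (η ^ N)⁻¹) := by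
    obtain ⟨s, rfl⟩ := Nat.exists_eq_add_of_le hNt
    rw [pow_add, div_pow]
    apply mul_le_mul_of_nonneg_left _ (by positivity)
    rw [pow_add]
    have h4 : η ^ N * η ^ s * (η ^ N)⁻¹ = η ^ s := by
      field_simp
    rw [h4]
    apply pow_le_pow_left₀ (by positivity)
    rw [div_le_iff₀ hP]
    exact hq
  have h5 : ρ ^ (2 * q + 1 - 2 * t) = ρ⁻¹ * (ρ ^ 2) ^ (q + 1 - t) := by
    rw [← pow_mul, show 2 * (q + 1 - t) = (2 * q + 1 - 2 * t) + 1 by omega, pow_succ]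
    field_simp
  have h6 : B ^ (k - t) = B ^ k * (B ^ t)⁻¹ := by
    rw [eq_mul_inv_iff_mul_eq₀ (by positivity), ← pow_add, Nat.sub_add_cancel (htq.trans hqk)]
  calc tm B v ρ k q t = (((2 * q + 1).choose (2 * t) : ℝ) *
        (Nat.doubleFactorial (2 * t - 1) : ℝ) * (odf (k - t) : ℝ)) *
        (ρ ^ (2 * q + 1 - 2 * t) * v ^ t * B ^ (k - t)) := by unfold tm; ring
    _ ≤ (((q + 1).choose t : ℝ) * ((2 * q : ℝ) / P) ^ t * odf k) *
        (ρ ^ (2 * q + 1 - 2 * t) * v ^ t * B ^ (k - t)) :=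
        mul_le_mul_of_nonneg_right h2 (by positivity)
    _ ≤ (((q + 1).choose t : ℝ) * (((2 * q : ℝ) ^ N / P ^ N) * (η ^ t * (η ^ N)⁻¹)) * odf k) *
        (ρ ^ (2 * q + 1 - 2 * t) * v ^ t * B ^ (k - t)) := by
        apply mul_le_mul_of_nonneg_right _ (by positivity)
        apply mul_le_mul_of_nonneg_right _ (by positivity)
        exact mul_le_mul_of_nonneg_left h3 (by positivity)
    _ = _ := by
        rw [h5, h6, div_pow, mul_pow]
        ring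

/-- the sum of the terms with `t ≥ N` for a given `q` -/
theorem tm_sum_le (hBIN : S_BIN) (B v ρ η : ℝ) (hB : 0 < B) (hv : 0 ≤ v) (hρ : 0 < ρ)
    (hη : 0 < η) (k q N : ℕ) (hqk : q ≤ k) (hq : (2 * q : ℝ) ≤ η * (2 * k + 1)) :
    ∑ t ∈ Ico N (q + 1), tm B v ρ k q t ≤
      (odf k * B ^ k * ρ⁻¹ * (η ^ N)⁻¹ * ((2 * q : ℝ) ^ N / (2 * k + 1) ^ N)) *
        (ρ ^ 2 + η * v / B) ^ (q + 1) := by
  have h1 : ∑ t ∈ Ico N (q + 1), tm B v ρ k q t ≤ ∑ t ∈ Ico N (q + 1),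
      (odf k * B ^ k * ρ⁻¹ * (η ^ N)⁻¹ * ((2 * q : ℝ) ^ N / (2 * k + 1) ^ N)) *
      ((η * v / B) ^ t * (ρ ^ 2) ^ (q + 1 - t) * ((q + 1).choose t : ℝ)) := by
    refine sum_le_sum fun t ht => ?_
    rw [mem_Ico] at ht
    exact tm_le hBIN B v ρ η hB hv hρ hη k q t N ht.1 (by omega) hqk hq
  refine h1.trans ?_
  rw [← mul_sum]
  apply mul_le_mul_of_nonneg_left _ (by positivity)
  rw [add_comm (ρ ^ 2), add_pow]
  apply sum_le_sum_of_subset_of_nonneg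
  · intro t ht
    rw [mem_Ico] at ht
    rw [mem_range]
    omega
  · intro t _ _
    positivity

/-- part (b): the terms with `t ≥ N` -/
theorem tail_le (hBIN : S_BIN) (B v ρ R C θ η : ℝ) (Γ Δ : ℕ → ℝ) (c : ℕ → ℕ) (hB : 0 < B)
    (hv : 0 ≤ v) (hρ : 0 < ρ) (hη : 0 < η) (hy : ρ ^ 2 + η * v / B < 1) (hθ0 : 0 < θ)
    (hθ1 : θ < 1) (hΓ : ∀ q, |Γ q| ≤ C) (hΔ : ∀ p, |Δ p - R| ≤ C * θ ^ p) (hc : ∀ k, c k ≤ k)
    (hcη : ∀ k, (2 * c k : ℝ) ≤ η * (2 * k + 1)) (N : ℕ) : ∃ K : ℝ, ∀ k, N ≤ k →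
      |∑ q ∈ range (c k + 1), Γ q * Δ (k - q) * ∑ t ∈ Ico N (q + 1), tm B v ρ k q t| ≤
        K * gau 0 B (k - N) := by
  have hC : 0 ≤ C := (abs_nonneg _).trans (hΓ 0)
  obtain ⟨y, hyd⟩ : ∃ y : ℝ, y = ρ ^ 2 + η * v / B := ⟨_, rfl⟩
  rw [← hyd] at hy
  have hy0 : 0 < y := by rw [hyd]; positivity
  obtain ⟨K1, x, hK1, hx0, hx1, hp⟩ := poly_geom y hy0 hy N
  have hC2 : ∀ k q, |Γ q * Δ (k - q)| ≤ C * (C + |R|) := by
    intro k q
    rw [abs_mul]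
    refine mul_le_mul (hΓ q) ?_ (abs_nonneg _) hC
    have h1 : θ ^ (k - q) ≤ 1 := pow_le_one₀ hθ0.le hθ1.le
    calc |Δ (k - q)| = |(Δ (k - q) - R) + R| := by ring_nf
      _ ≤ |Δ (k - q) - R| + |R| := abs_add_le _ _
      _ ≤ C * θ ^ (k - q) + |R| := by gcongr; exact hΔ _
      _ ≤ C * 1 + |R| := by gcongr
      _ = C + |R| := by ring
  have h1x : 0 < 1 - x := by linarith
  have hgeo : ∀ n : ℕ, ∑ q ∈ range n, (2 * q : ℝ) ^ N * y ^ (q + 1) ≤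
      2 ^ N * K1 * (1 / (1 - x)) := by
    intro n
    calc ∑ q ∈ range n, (2 * q : ℝ) ^ N * y ^ (q + 1)
        ≤ ∑ q ∈ range n, 2 ^ N * K1 * x ^ q := by
          refine sum_le_sum fun q _ => ?_
          have h3 : (2 * q : ℝ) ^ N ≤ 2 ^ N * ((q : ℝ) + 1) ^ N := by
            rw [← mul_pow]
            apply pow_le_pow_left₀ (by positivity)
            linarith
          have h4 : y ^ (q + 1) ≤ y ^ q := pow_le_pow_of_le_one hy0.le hy.le (by omega)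
          calc (2 * q : ℝ) ^ N * y ^ (q + 1) ≤ (2 ^ N * ((q : ℝ) + 1) ^ N) * y ^ q :=
                mul_le_mul h3 h4 (by positivity) (by positivity)
            _ = 2 ^ N * (((q : ℝ) + 1) ^ N * y ^ q) := by ring
            _ ≤ 2 ^ N * (K1 * x ^ q) := mul_le_mul_of_nonneg_left (hp q) (by positivity)
            _ = _ := by ring
      _ = 2 ^ N * K1 * ∑ q ∈ range n, x ^ q := by rw [mul_sum]
      _ ≤ 2 ^ N * K1 * (1 / (1 - x)) := by
          apply mul_le_mul_of_nonneg_left _ (by positivity)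
          rw [geom_sum_eq hx1.ne, ← neg_div_neg_eq]
          have h5 : 0 < x ^ n := by positivity
          rw [neg_sub, neg_sub]
          gcongr
          linarith
  refine ⟨C * (C + |R|) * ρ⁻¹ * (η ^ N)⁻¹ * B ^ N * (2 ^ N * K1 * (1 / (1 - x))),
    fun k hk => ?_⟩
  have hP : (0 : ℝ) < 2 * k + 1 := by positivity
  have hodf : (odf k : ℝ) / (2 * k + 1) ^ N ≤ odf (k - N) := by
    rw [div_le_iff₀ (by positivity)]
    have h3 := odf_le_pow N (k - N)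
    rw [Nat.sub_add_cancel hk] at h3
    have h4 : (((k - N : ℕ) : ℝ) + N) = k := by
      rw [Nat.cast_sub hk]
      ring
    rw [h4] at h3
    linarith
  calc |∑ q ∈ range (c k + 1), Γ q * Δ (k - q) * ∑ t ∈ Ico N (q + 1), tm B v ρ k q t|
      ≤ ∑ q ∈ range (c k + 1), |Γ q * Δ (k - q) * ∑ t ∈ Ico N (q + 1), tm B v ρ k q t| :=
        abs_sum_le_sum_abs _ _
    _ ≤ ∑ q ∈ range (c k + 1), C * (C + |R|) *
        ((odf k * B ^ k * ρ⁻¹ * (η ^ N)⁻¹ * ((2 * q : ℝ) ^ N / (2 * k + 1) ^ N)) *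
          y ^ (q + 1)) := by
        refine sum_le_sum fun q hq => ?_
        rw [mem_range] at hq
        have hqc : q ≤ c k := by omega
        have hqc' : (q : ℝ) ≤ c k := by exact_mod_cast hqc
        rw [abs_mul]
        refine mul_le_mul (hC2 k q) ?_ (abs_nonneg _) (by positivity)
        rw [abs_of_nonneg (sum_nonneg fun t _ => tm_nonneg B v ρ hB hv hρ k q t), hyd]
        exact tm_sum_le hBIN B v ρ η hB hv hρ hη k q N (hqc.trans (hc k))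
          (by linarith [hcη k])
    _ = C * (C + |R|) * ρ⁻¹ * (η ^ N)⁻¹ * B ^ k * ((odf k : ℝ) / (2 * k + 1) ^ N) *
        ∑ q ∈ range (c k + 1), (2 * q : ℝ) ^ N * y ^ (q + 1) := by
        rw [mul_sum]
        refine sum_congr rfl fun q _ => ?_
        ring
    _ ≤ C * (C + |R|) * ρ⁻¹ * (η ^ N)⁻¹ * B ^ k * odf (k - N) *
        (2 ^ N * K1 * (1 / (1 - x))) := by
        apply mul_le_mul _ (hgeo _) (sum_nonneg fun q _ => by positivity) (by positivity)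
        exact mul_le_mul_of_nonneg_left hodf (by positivity)
    _ = _ := by
        unfold gau
        rw [add_zero]
        have : B ^ k = B ^ N * B ^ (k - N) := by rw [← pow_add, Nat.add_sub_cancel' hk]
        rw [this]
        ring

theorem tm_split (B v ρ : ℝ) (k q N : ℕ) : ∑ t ∈ range (q + 1), tm B v ρ k q t =
    ∑ t ∈ range N, tm B v ρ k q t + ∑ t ∈ Ico N (q + 1), tm B v ρ k q t := by
  rcases le_or_gt N (q + 1) with h | h
  · exact (sum_range_add_sum_Ico _ h).symm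
  · rw [Ico_eq_empty (by omega), sum_empty, add_zero]
    refine sum_subset (range_mono h.le) fun t _ ht => ?_
    rw [mem_range] at ht
    unfold tm
    rw [Nat.choose_eq_zero_of_lt (by omega)]
    simp

/-- the coefficient of the double factorial -/
noncomputable def bb (ρ : ℝ) (t q : ℕ) : ℝ :=
  ((2 * q + 1).choose (2 * t) : ℝ) * ρ ^ (2 * q + 1 - 2 * t)

/-- the error of the term `t` -/
noncomputable def uu (B v ρ R : ℝ) (Γ Δ : ℕ → ℝ) (c : ℕ → ℕ) (t k : ℕ) : ℝ :=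
  (Nat.doubleFactorial (2 * t - 1) : ℝ) * v ^ t * (odf (k - t) : ℝ) * B ^ (k - t) *
    (∑ q ∈ range (c k + 1), Γ q * Δ (k - q) * bb ρ t q - R * ∑' q, Γ q * bb ρ t q)

theorem uu_small (B v ρ R C θ : ℝ) (Γ Δ : ℕ → ℝ) (c : ℕ → ℕ) (hB : 0 < B) (hv : 0 ≤ v)
    (hρ : 0 < ρ) (hρ1 : ρ < 1) (hθ0 : 0 < θ) (hθ1 : θ < 1) (hΓ : ∀ q, |Γ q| ≤ C)
    (hΔ : ∀ p, |Δ p - R| ≤ C * θ ^ p) (hc : ∀ k, c k ≤ k) (hc2 : ∀ k, k ≤ 2 * c k + 2)
    (t N : ℕ) :
    (fun k => ((uu B v ρ R Γ Δ c t k : ℝ) : ℂ)) =O[atTop] (fun k => gau 0 B (k - N)) := by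
  obtain ⟨K, θ₁, h10, h11, hb⟩ := coef_small ρ hρ hρ1 t
  obtain ⟨K', x, hx0, hx1, hE⟩ := conv_err C R θ θ₁ K Γ Δ (bb ρ t) c hθ0 hθ1 h10 h11 hΓ hΔ hc
    hc2 hb
  have hK' : 0 ≤ K' := by
    have := (abs_nonneg _).trans (hE 0)
    simpa using this
  obtain ⟨M, hM⟩ : ∃ M : ℝ, M = max 1 B⁻¹ := ⟨_, rfl⟩
  have hM1 : 1 ≤ M := by rw [hM]; exact le_max_left _ _
  have hMB : B⁻¹ ≤ M := by rw [hM]; exact le_max_right _ _
  have hBM : ∀ k, B ^ (k - t) ≤ B ^ k * M ^ t := by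
    intro k
    rcases le_or_gt t k with h | h
    · have h2 : B ^ (k - t) = B ^ k * (B⁻¹) ^ t := by
        rw [inv_pow, eq_mul_inv_iff_mul_eq₀ (by positivity), ← pow_add, Nat.sub_add_cancel h]
      rw [h2]
      apply mul_le_mul_of_nonneg_left _ (by positivity)
      exact pow_le_pow_left₀ (by positivity) hMB t
    · rw [Nat.sub_eq_zero_of_le h.le, pow_zero]
      calc (1 : ℝ) = B ^ k * (B⁻¹) ^ k := by rw [inv_pow, mul_inv_cancel₀ (by positivity)]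
        _ ≤ B ^ k * M ^ k := by
            apply mul_le_mul_of_nonneg_left _ (by positivity)
            exact pow_le_pow_left₀ (by positivity) hMB k
        _ ≤ B ^ k * M ^ t := by
            apply mul_le_mul_of_nonneg_left _ (by positivity)
            exact pow_le_pow_right₀ hM1 h.le
  refine negligible 0 hB (θ := x)
    (C' := (Nat.doubleFactorial (2 * t - 1) : ℝ) * v ^ t * M ^ t * K') hx0 hx1 (fun k => ?_) N
  rw [Complex.norm_real, Real.norm_eq_abs]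
  unfold uu
  rw [abs_mul, abs_of_nonneg (a := (Nat.doubleFactorial (2 * t - 1) : ℝ) * v ^ t *
    (odf (k - t) : ℝ) * B ^ (k - t)) (by positivity)]
  have h1 : (odf (k - t) : ℝ) ≤ odf k := by exact_mod_cast odf_mono (Nat.sub_le k t)
  calc (Nat.doubleFactorial (2 * t - 1) : ℝ) * v ^ t * (odf (k - t) : ℝ) * B ^ (k - t) *
        |∑ q ∈ range (c k + 1), Γ q * Δ (k - q) * bb ρ t q - R * ∑' q, Γ q * bb ρ t q|
      ≤ (Nat.doubleFactorial (2 * t - 1) : ℝ) * v ^ t * (odf k : ℝ) * (B ^ k * M ^ t) *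
        (K' * x ^ k) := by
        have hM0 : 0 ≤ M := by linarith
        have := hE k
        have := hBM k
        gcongr
    _ = _ := by rw [mul_pow]; ring

theorem key_real (B v ρ R : ℝ) (Γ Δ : ℕ → ℝ) (c : ℕ → ℕ) (k N : ℕ) (hk : N ≤ k) :
    ((-1) ^ k * ∑ q ∈ range (c k + 1), Γ q * Δ (k - q) * ∑ t ∈ range (q + 1), tm B v ρ k q t) -
      ∑ l ∈ range N, ((-1) ^ (k - l) * (R * (Nat.doubleFactorial (2 * l - 1) : ℝ) * (-v) ^ l *
        Et Γ ρ l)) * gau 0 B (k - l) =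
    (-1) ^ k * (∑ t ∈ range N, uu B v ρ R Γ Δ c t k +
      ∑ q ∈ range (c k + 1), Γ q * Δ (k - q) * ∑ t ∈ Ico N (q + 1), tm B v ρ k q t) := by
  have h1 : ∑ q ∈ range (c k + 1), Γ q * Δ (k - q) * ∑ t ∈ range (q + 1), tm B v ρ k q t =
      ∑ t ∈ range N, ((Nat.doubleFactorial (2 * t - 1) : ℝ) * v ^ t * (odf (k - t) : ℝ) *
        B ^ (k - t) * ∑ q ∈ range (c k + 1), Γ q * Δ (k - q) * bb ρ t q) +
      ∑ q ∈ range (c k + 1), Γ q * Δ (k - q) * ∑ t ∈ Ico N (q + 1), tm B v ρ k q t := by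
    have h2 : ∑ t ∈ range N, ((Nat.doubleFactorial (2 * t - 1) : ℝ) * v ^ t *
        (odf (k - t) : ℝ) * B ^ (k - t) * ∑ q ∈ range (c k + 1), Γ q * Δ (k - q) * bb ρ t q) =
        ∑ q ∈ range (c k + 1), Γ q * Δ (k - q) * ∑ t ∈ range N, tm B v ρ k q t := by
      simp only [mul_sum]
      rw [sum_comm]
      refine sum_congr rfl fun q _ => sum_congr rfl fun t _ => ?_
      unfold tm bb
      ring
    rw [h2, ← sum_add_distrib]
    refine sum_congr rfl fun q _ => ?_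
    rw [tm_split B v ρ k q N, mul_add]
  have h3 : ∑ l ∈ range N, ((-1) ^ (k - l) * (R * (Nat.doubleFactorial (2 * l - 1) : ℝ) *
      (-v) ^ l * Et Γ ρ l)) * gau 0 B (k - l) =
      (-1) ^ k * ∑ t ∈ range N, ((Nat.doubleFactorial (2 * t - 1) : ℝ) * v ^ t *
        (odf (k - t) : ℝ) * B ^ (k - t) * (R * ∑' q, Γ q * bb ρ t q)) := by
    rw [mul_sum]
    refine sum_congr rfl fun l hl => ?_
    rw [mem_range] at hl
    have h4 : (-1 : ℝ) ^ k = (-1) ^ (k - l) * (-1) ^ l := by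
      rw [← pow_add, Nat.sub_add_cancel (by omega)]
    have h5 : Et Γ ρ l = ∑' q, Γ q * bb ρ l q := by
      unfold Et bb
      refine tsum_congr fun q => ?_
      ring
    have h6 : (-v) ^ l = (-1) ^ l * v ^ l := by rw [← mul_pow]; ring
    rw [h4, h5, h6]
    unfold gau
    rw [add_zero]
    ring
  rw [h1, h3, ← mul_sub]
  congr 1
  unfold uu
  rw [add_sub_right_comm, ← sum_sub_distrib]
  congr 1
  refine sum_congr rfl fun t _ => ?_
  ring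

/-- brick HALF -/
theorem t_HALF (hBIN : S_BIN) : S_HALF := by
  intro B v ρ R C θ η Γ Δ c hB hv hρ hρ1 hη hη1 hy hθ0 hθ1 hΓ hΔ hc hcη hc2 N
  obtain ⟨K, hK⟩ := tail_le hBIN B v ρ R C θ η Γ Δ c hB hv hρ hη hy hθ0 hθ1 hΓ hΔ hc hcη N
  have hT : (fun k => ((∑ q ∈ range (c k + 1), Γ q * Δ (k - q) *
      ∑ t ∈ Ico N (q + 1), tm B v ρ k q t : ℝ) : ℂ)) =O[atTop] (fun k => gau 0 B (k - N)) := by
    refine IsBigO.of_bound K ?_
    filter_upwards [eventually_ge_atTop N] with k hk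
    rw [Complex.norm_real, Real.norm_eq_abs,
      Real.norm_of_nonneg ((gauge_gau 0 hB).pos _).le]
    exact hK k hk
  have hsum := (IsBigO.sum (s := range N) fun t _ =>
    uu_small B v ρ R C θ Γ Δ c hB hv hρ hρ1 hθ0 hθ1 hΓ hΔ hc hc2 t N).add hT
  refine IsBigO.trans (IsBigO.of_bound 1 ?_) hsum
  filter_upwards [eventually_ge_atTop N] with k hk
  have h1 : coeff k (halfSeries B v ρ Γ Δ c) -
      mainPart (gau 0 B) 0 (expSeries R v ρ Γ) N k =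
      (-1 : ℂ) ^ k * (∑ t ∈ range N, ((uu B v ρ R Γ Δ c t k : ℝ) : ℂ) +
        ((∑ q ∈ range (c k + 1), Γ q * Δ (k - q) *
          ∑ t ∈ Ico N (q + 1), tm B v ρ k q t : ℝ) : ℂ)) := by
    have h2 := congrArg (fun r : ℝ => (r : ℂ)) (key_real B v ρ R Γ Δ c k N hk)
    have h3 : coeff k (halfSeries B v ρ Γ Δ c) = (((-1) ^ k * ∑ q ∈ range (c k + 1),
        Γ q * Δ (k - q) * ∑ t ∈ range (q + 1), tm B v ρ k q t : ℝ) : ℂ) := by
      unfold halfSeries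
      rw [coeff_mk]
      rfl
    have h4 : mainPart (gau 0 B) 0 (expSeries R v ρ Γ) N k =
        ((∑ l ∈ range N, ((-1) ^ (k - l) * (R * (Nat.doubleFactorial (2 * l - 1) : ℝ) *
          (-v) ^ l * Et Γ ρ l)) * gau 0 B (k - l) : ℝ) : ℂ) := by
      unfold mainPart expSeries
      rw [Complex.ofReal_sum]
      refine sum_congr rfl fun l _ => ?_
      rw [coeff_mk, map_zero, zero_add]
      push_cast
      ring
    rw [h3, h4, ← Complex.ofReal_sub, h2]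
    push_cast
    ring
  rw [h1, norm_mul, norm_pow, norm_neg, norm_one, one_pow, one_mul, one_mul, Finset.sum_apply]

end Pool.Agent.K3h70.SB
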